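import Pool.Agent.Lib.MP_80aaf5_lc.AlgGen.Defs
import Pool.Agent.Lib.MP_b9add9_lc.Alg.World

/-!
# Additive extensions: locality, messages; the algebraic extension is additive
-/

namespace ESY.Alg.Gen

open ESY ESY.Few Polynomial

/-- the condition with the bound `poly k` -/
def IsAdd (k : ℕ) (E : Oracle → Oracle) : Prop :=
  ∀ s : List Bool, ∃ (G : Type) (_ : AddCommGroup G) (_ : Fintype G)
    (g : List Bool → G) (F : G → Bool), Fintype.card G ≤ 2 ^ poly k s.length ∧
      ∀ A : Oracle, E A s =
        F (∑ r ∈ (List.finite_length_le Bool (poly k s.length)).toFinset, (A r).toNat • g r)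

/-- the oracle with its extension -/
def exo (E : Oracle → Oracle) (A : Oracle) : Oracle := join A (E A)

/-- the bound -/
def bd (k n : ℕ) : ℕ := n + poly k n

theorem bd_mono {k m n : ℕ} (h : m ≤ n) : bd k m ≤ bd k n := by
  unfold bd poly
  have := Nat.pow_le_pow_left h k
  omega

theorem poly_le_bd (k n : ℕ) : poly k n ≤ bd k n := Nat.le_add_left _ _

theorem le_bd (k n : ℕ) : n ≤ bd k n := Nat.le_add_right _ _

variable {k : ℕ} {E : Oracle → Oracle}

theorem add_congr (hE : IsAdd k E) {A A' : Oracle} {s : List Bool}
    (h : Agree (bd k s.length) A A') : E A s = E A' s := by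
  obtain ⟨G, hG, hF, g, F, -, h1⟩ := hE s
  rw [h1, h1]
  congr 1
  refine Finset.sum_congr rfl fun r hr => ?_
  have hr' : r.length ≤ poly k s.length := by simpa using hr
  rw [h r (hr'.trans (poly_le_bd _ _))]

theorem exo_congr (hE : IsAdd k E) {A A' : Oracle} {s : List Bool}
    (h : Agree (bd k s.length) A A') : exo E A s = exo E A' s := by
  match s, h with
  | [], _ => rfl
  | false :: r, h =>
    exact h r (le_trans (by rw [List.length_cons]; omega) (le_bd k _))
  | true :: r, h =>
    exact add_congr hE (h.mono (bd_mono (by rw [List.length_cons]; omega)))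

theorem msg (hE : IsAdd k E) (f : Frame) (s : List Bool) :
    Msg (2 ^ poly k s.length) fun p p' => E (f.Wd p p') s := by
  obtain ⟨G, hG, hF, g, F, hc, h1⟩ := hE s
  let φ : Oracle → G := fun A =>
    ∑ r ∈ (List.finite_length_le Bool (poly k s.length)).toFinset, (A r).toNat • g r
  refine ⟨G, hF, fun p => φ f.A0 + φ (f.A1 p), fun p' => φ (f.A2 p'), fun a b => F (a + b), hc,
    fun p p' => ?_⟩
  change E (f.Wd p p') s = F (φ f.A0 + φ (f.A1 p) + φ (f.A2 p'))
  rw [h1]
  congr 1
  simp only [φ]
  rw [← Finset.sum_add_distrib, ← Finset.sum_add_distrib]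
  refine Finset.sum_congr rfl fun r _ => ?_
  rw [Frame.wd_split, add_smul, add_smul]

theorem msg_le (hE : IsAdd k E) (f : Frame) {s : List Bool} {L : ℕ} (h : s.length ≤ L) :
    Msg (2 ^ bd k L) fun p p' => exo E (f.Wd p p') s := by
  match s, h with
  | [], _ => exact ⟨Unit, inferInstance, fun _ => (), fun _ => (), fun _ _ => false, by
      rw [Fintype.card_unit]
      exact Nat.one_le_two_pow, fun p p' => rfl⟩
  | false :: r, h =>
    rw [List.length_cons] at h
    refine ⟨Bool, inferInstance, fun p => f.A0 r || f.A1 p r, fun p' => f.A2 p' r,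
      fun x y => x || y, ?_, fun p p' => rfl⟩
    rw [Fintype.card_bool]
    calc 2 = 2 ^ 1 := rfl
      _ ≤ 2 ^ bd k L := Nat.pow_le_pow_right (by norm_num)
        (le_trans (by omega) (le_bd k L))
  | true :: r, h =>
    rw [List.length_cons] at h
    obtain ⟨ι, hι, a, b, F, h1, h2⟩ := msg hE f r
    exact ⟨ι, hι, a, b, F, h1.trans (Nat.pow_le_pow_right (by norm_num)
      ((poly_le_bd _ _).trans (bd_mono (by omega)))), h2⟩

/-! ### The algebraic extension -/

open Classical in
/-- the set with one element -/
noncomputable def dl (x : List Bool) : Oracle := fun r => decide (r = x)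

open Classical in
/-- a finite set -/
noncomputable def fs (S : Finset (List Bool)) : Oracle := fun r => decide (r ∈ S)

theorem ml_fs {R : Type} [CommRing R] (l : List R) (S : Finset (List Bool)) :
    ml (fs S) l = ∑ x ∈ S, ml (dl x) l := by
  classical
  induction S using Finset.induction_on with
  | empty =>
    rw [Finset.sum_empty]
    have h := ml_add l (fs ∅) (fs ∅) (fs ∅) (fs ∅) (fun s => by simp [fs])
    have h2 : ml (fs ∅) l + ml (fs ∅) l = 0 := by linear_combination -h
    have h3 : ∀ l : List R, ml (fs ∅) l = 0 := by
      intro l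
      have h4 : ∀ (l : List R) (A : Oracle), (∀ s, A s = false) → ml A l = 0 := by
        intro l
        induction l with
        | nil => intro A hA; simp [ml, hA]
        | cons r l ih =>
          intro A hA
          rw [ml, ih _ fun s => hA _, ih _ fun s => hA _]
          ring
      exact h4 l _ fun s => by simp [fs]
    exact h3 l
  | insert a S ha ih =>
    rw [Finset.sum_insert ha, ← ih]
    have h0 : ∀ (l : List R) (A : Oracle), (∀ s, A s = false) → ml A l = 0 := by
      intro l
      induction l with
      | nil => intro A hA; simp [ml, hA]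
      | cons r l ih =>
        intro A hA
        rw [ml, ih _ fun s => hA _, ih _ fun s => hA _]
        ring
    have h := ml_add l (fs (insert a S)) (dl a) (fs S) (fun _ => false) (fun s => by
      by_cases h1 : s = a
      · subst h1
        simp [fs, dl, ha]
      · by_cases h2 : s ∈ S
        · simp [fs, dl, h1, h2]
        · simp [fs, dl, h1, h2])
    rw [h, h0 l _ fun _ => rfl, add_zero]

theorem ml_sum {R : Type} [CommRing R] (l : List R) (A : Oracle) {N : ℕ} (h : l.length ≤ N) :
    ml A l = ∑ x ∈ (List.finite_length_le Bool N).toFinset, (A x).toNat • ml (dl x) l := by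
  classical
  rw [ml_congr l A (fs ((List.finite_length_le Bool N).toFinset.filter fun x => A x = true)), ml_fs,
    Finset.sum_filter]
  · refine Finset.sum_congr rfl fun x _ => ?_
    cases hx : A x <;> simp
  · intro s hs
    have hs' : s.length ≤ N := hs.le.trans h
    cases hx : A s <;> simp [fs, hx, hs']

theorem isAdd_ext : IsAdd 1 ext := by
  intro s
  have h0 := nums_lt s
  have h00 := nums_length s
  unfold ext
  generalize nums s = ns at h0 h00 ⊢
  have hp : s.length ≤ poly 1 s.length := by simp [poly]
  rcases ns with _ | ⟨q, _ | ⟨k, _ | ⟨l, _ | ⟨j, r⟩⟩⟩⟩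
  · exact ⟨ZMod 1, inferInstance, inferInstance, fun _ => 0, fun _ => false, by
      simpa using Nat.one_le_two_pow, fun _ => rfl⟩
  · exact ⟨ZMod 1, inferInstance, inferInstance, fun _ => 0, fun _ => false, by
      simpa using Nat.one_le_two_pow, fun _ => rfl⟩
  · exact ⟨ZMod 1, inferInstance, inferInstance, fun _ => 0, fun _ => false, by
      simpa using Nat.one_le_two_pow, fun _ => rfl⟩
  · exact ⟨ZMod 1, inferInstance, inferInstance, fun _ => 0, fun _ => false, by
      simpa using Nat.one_le_two_pow, fun _ => rfl⟩
  · let pts := (List.range (r.length / k - 1)).map fun i => pol q ((r.drop (k * (i + 1))).take k)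
    refine ⟨ZMod (q + 1), inferInstance, inferInstance, fun x =>
      (ml (dl x) pts %ₘ (X ^ k + pol q (r.take k))).coeff l,
      fun z => z.val.testBit j, ?_, fun A => ?_⟩
    · rw [ZMod.card]
      have h1 : q < 2 ^ s.length := h0 q List.mem_cons_self
      exact le_trans h1 (Nat.pow_le_pow_right (by norm_num) hp)
    · simp only
      congr 1
      congr 1
      have hl : pts.length ≤ poly 1 s.length := by
        simp only [pts, List.length_map, List.length_range]
        simp only [List.length_cons] at h00
        have := Nat.div_le_self r.length k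
        omega
      change (ml A pts %ₘ _).coeff l = _
      rw [ml_sum pts A hl]
      generalize (List.finite_length_le Bool (poly 1 s.length)).toFinset = S
      classical
      induction S using Finset.induction_on with
      | empty => simp
      | insert a S ha ih =>
        rw [Finset.sum_insert ha, Finset.sum_insert ha, Polynomial.add_modByMonic, coeff_add, ih]
        congr 1
        cases A a <;> simp

theorem additiveExt_ext : AdditiveExt ext := ⟨1, isAdd_ext⟩

end ESY.Alg.Gen
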