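import Pool.Agent.Lib.MP_b9add9_lc.Alg.Defs

/-!
# Additive extensions of oracles
-/

namespace ESY

/-- `E` is an additive extension of oracles: for some `k` and every string `s`, the answer
`E A s` is a function of the sum, over the strings `r` with `A r = true` and of length at most
`poly k s.length`, of elements `g r` of a finite abelian group with at most
`2 ^ poly k s.length` elements. The group, its elements `g r` and the function `F` may depend on
`s` in an arbitrary way. -/
def AdditiveExt (E : Oracle → Oracle) : Prop :=
  ∃ k : ℕ, ∀ s : List Bool, ∃ (G : Type) (_ : AddCommGroup G) (_ : Fintype G)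
    (g : List Bool → G) (F : G → Bool), Fintype.card G ≤ 2 ^ poly k s.length ∧
      ∀ A : Oracle, E A s =
        F (∑ r ∈ (List.finite_length_le Bool (poly k s.length)).toFinset, (A r).toNat • g r)

end ESY
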