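import Pool.Agent.Lib.MP_80aaf5_lc.AlgGen.Setup
import Pool.Agent.Lib.MP_b9add9_lc.Alg.Dense

/-!
# The requirements are open and dense
-/

namespace ESY.Alg.Gen

open ESY ESY.Few Set Topology Filter

variable (E : Oracle → Oracle) (X₀ : Oracle) {k : ℕ}

/-- `M` accepts `x` deterministically -/
def Acc (p : List Bool) (M : Machine) (T : ℕ → ℕ) (y : Par) (x : List Bool) : Prop :=
  AcceptsIn (join (EO E X₀ y) (SP E X₀ y p)) M x [] (T x.length)

/-- `M` accepts `x` nondeterministically -/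
def NAcc (p : List Bool) (M : Machine) (T : ℕ → ℕ) (y : Par) (x : List Bool) : Prop :=
  ∃ w : List Bool, w.length ≤ T x.length ∧
    AcceptsIn (join (EO E X₀ y) (SP E X₀ y p)) M x w (T x.length)

theorem clopen_acc (hE : IsAdd k E) (p : List Bool) (M : Machine) (T : ℕ → ℕ) (x : List Bool) :
    IsClopen {y | Acc E X₀ p M T y x} := clopen_accepts fun s _ => clopen_oracle E X₀ hE p s

theorem clopen_nacc (hE : IsAdd k E) (p : List Bool) (M : Machine) (T : ℕ → ℕ) (x : List Bool) :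
    IsClopen {y | NAcc E X₀ p M T y x} := by
  have h3 : {y | NAcc E X₀ p M T y x} = ⋃ w ∈ {w : List Bool | w.length ≤ T x.length},
      {y | AcceptsIn (join (EO E X₀ y) (SP E X₀ y p)) M x w (T x.length)} := by
    ext y
    simp only [NAcc, mem_ofPred_eq, mem_iUnion, exists_prop]
  rw [h3]
  exact (List.finite_length_le Bool _).isClopen_biUnion fun w _ =>
    clopen_accepts fun s _ => clopen_oracle E X₀ hE p s

/-- the pair is not disjoint -/
def Mt (a b : ℕ) : Set Par := {y | ∃ q, Tr (EO E X₀ y) a q ∧ Tr (EO E X₀ y) b q}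

theorem isOpen_mt (hE : IsAdd k E) (a b : ℕ) : IsOpen (Mt E X₀ a b) := by
  have h1 : Mt E X₀ a b = ⋃ q, ({y | Tr (EO E X₀ y) a q} ∩ {y | Tr (EO E X₀ y) b q}) := by
    ext y
    simp only [Mt, mem_ofPred_eq, mem_iUnion, mem_inter_iff]
  rw [h1]
  exact isOpen_iUnion fun q => ((clopen_trE E X₀ hE _ _).inter (clopen_trE E X₀ hE _ _)).2

/-- `M` does not decide the language -/
def ReqD (p : List Bool) (M : Machine) (T : ℕ → ℕ) : Set Par :=
  {y | ∃ x, ¬ (x ∈ Test (OO X₀ y) ↔ Acc E X₀ p M T y x)}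

/-- `M` does not accept the complement of the language -/
def ReqN (p : List Bool) (M : Machine) (T : ℕ → ℕ) : Set Par :=
  {y | ∃ x, ¬ (x ∉ Test (OO X₀ y) ↔ NAcc E X₀ p M T y x)}

/-- the pair `(a, b)` is not disjoint or it is activated at some tag where it is forced to be
disjoint -/
def ReqA (a b : ℕ) : Set Par := Mt E X₀ a b ∪ ⋃ m, {y | act y a b m = true ∧ Fc E X₀ y a b m}

theorem isOpen_req {P Q : Par → List Bool → Prop} (hP : ∀ x, IsClopen {y | P y x})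
    (hQ : ∀ x, IsClopen {y | Q y x}) : IsOpen {y | ∃ x, ¬ (P y x ↔ Q y x)} := by
  have h : {y | ∃ x, ¬ (P y x ↔ Q y x)} =
      ⋃ x, ({y | P y x → Q y x} ∩ {y | Q y x → P y x})ᶜ := by
    ext y
    simp only [mem_ofPred_eq, mem_iUnion, mem_compl_iff, mem_inter_iff, iff_def]
  rw [h]
  exact isOpen_iUnion fun x => ((clopen_imp (hP x) (hQ x)).inter
    (clopen_imp (hQ x) (hP x))).compl.2

theorem isOpen_reqD (hE : IsAdd k E) (p : List Bool) (M : Machine) (T : ℕ → ℕ) :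
    IsOpen (ReqD E X₀ p M T) :=
  isOpen_req (fun x => clopen_test X₀ x) (fun x => clopen_acc E X₀ hE p M T x)

theorem isOpen_reqN (hE : IsAdd k E) (p : List Bool) (M : Machine) (T : ℕ → ℕ) :
    IsOpen (ReqN E X₀ p M T) :=
  isOpen_req (fun x => clopen_not (clopen_test X₀ x)) (fun x => clopen_nacc E X₀ hE p M T x)

theorem isOpen_reqA (hE : IsAdd k E) (a b : ℕ) : IsOpen (ReqA E X₀ a b) :=
  (isOpen_mt E X₀ hE a b).union (isOpen_iUnion fun m =>
    (clopen_and (clopen_coord (Sum.inr (a, b, false :: List.replicate m true) : Idx))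
      (clopen_fc E X₀ a b m)).2)

theorem sub_sum {ι : Type} (t : Finset ι) {g : ι → ℕ → ℕ} (h : ∀ i ∈ t, Sub (g i)) :
    Sub fun n => ∑ i ∈ t, g i n := by
  classical
  induction t using Finset.induction_on with
  | empty => exact sub_const 0
  | insert a t ha ih =>
    have h1 := sub_add (h a (Finset.mem_insert_self a t))
      (ih fun i hi => h i (Finset.mem_insert_of_mem hi))
    have h2 : (fun n => ∑ i ∈ insert a t, g i n) = fun n => g a n + ∑ i ∈ t, g i n := by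
      funext n
      rw [Finset.sum_insert ha]
    rw [h2]
    exact h1

/-- the data of the density argument exist -/
theorem exists_setup (k : ℕ) (y₀ : Par) (N c : ℕ) {T : ℕ → ℕ} (hT : Sub T) :
    ∃ s : Setup k, s.y₀ = y₀ ∧ s.N = N ∧ s.c = c ∧ s.T = T s.n := by
  let m : ℕ → ℕ := fun n => n + 2 * T n + c
  let ℓ : ℕ → ℕ := fun n => ∑ i ∈ Finset.range (N + 1), (poly (nu i).2 (m n) + i + m n + 2)
  have hm : Sub m := sub_add (sub_add sub_id (sub_mul (sub_const 2) hT)) (sub_const c)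
  have hℓ : Sub ℓ := by
    refine sub_sum _ fun i _ => ?_
    exact sub_add (sub_add (sub_add (sub_poly hm _) (sub_const _)) hm) (sub_const _)
  have hℓi : ∀ n, ∀ i ≤ N, poly (nu i).2 (m n) + i + m n + 2 ≤ ℓ n := fun n i hi =>
    Finset.single_le_sum (f := fun i => poly (nu i).2 (m n) + i + m n + 2)
      (fun _ _ => Nat.zero_le _) (Finset.mem_range.2 (Nat.lt_succ_of_le hi))
  let K : ℕ := ∑ i ∈ Finset.range (N + 1), bd k (2 * (poly (nu i).2 N + i + N + 2))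
  have hKi : ∀ i ≤ N, bd k (2 * (poly (nu i).2 N + i + N + 2)) ≤ K := fun i hi =>
    Finset.single_le_sum (f := fun i => bd k (2 * (poly (nu i).2 N + i + N + 2)))
      (fun _ _ => Nat.zero_le _) (Finset.mem_range.2 (Nat.lt_succ_of_le hi))
  have hbd : ∀ {g : ℕ → ℕ}, Sub g → Sub fun n => bd k (g n) := fun hg =>
    sub_add hg (sub_poly hg k)
  have h2 : Sub fun n => 2 * T n + 1 +
      ((2 * ℓ n + 2 * bd k (2 * ℓ n) * ℓ n + 1) ^ 2 + 2 * bd k (m n)) * T n + 1 := by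
    refine sub_add (sub_add (sub_add (sub_mul (sub_const 2) hT) (sub_const 1))
      (sub_mul (sub_add (sub_pow (sub_add (sub_add (sub_mul (sub_const 2) hℓ)
        (sub_mul (sub_mul (sub_const 2) (hbd (sub_mul (sub_const 2) hℓ))) hℓ)) (sub_const 1)) 2)
        (sub_mul (sub_const 2) (hbd hm))) hT)) (sub_const 1)
  have hev := ((h2 1).and (eventually_ge_atTop (N + K + 2))).exists
  obtain ⟨n, hn2, hn3⟩ := hev
  simp only [pow_one] at hn2
  exact ⟨{ y₀ := y₀
           N := N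
           c := c
           n := n
           hn := by omega
           hNn := by omega
           L := m n
           ℓ := ℓ n
           hℓ := fun a ha q hq => (stm_len_le a q (m n) hq).trans (hℓi n a ha)
           hN := fun a ha q hq => (bd_mono (Nat.mul_le_mul_left 2 (stm_len_le a q N hq))).trans
             ((hKi a ha).trans (by omega))
           T := T n
           hT := le_rfl
           hB := Nat.lt_of_succ_le hn2 }, rfl, rfl, rfl, rfl⟩

theorem dense_D (hE : IsAdd k E) (p : List Bool) (M : Machine) {T : ℕ → ℕ} (hT : Sub T) :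
    Dense (ReqD E X₀ p M T) := by
  rw [dense_iff_inter_open]
  rintro U hU ⟨y₀, hy₀⟩
  by_contra hcon
  rw [not_nonempty_iff_eq_empty, eq_empty_iff_forall_notMem] at hcon
  obtain ⟨N, hN⟩ := exists_sy hU hy₀
  obtain ⟨s, hs1, hs2, hs3, hs4⟩ := exists_setup k y₀ N p.length hT
  have hw : ∀ p₁ p₂ κ, s.x₁ ∈ Test (OO X₀ (s.y X₀ p₁ p₂ κ)) ↔
      Acc E X₀ p M T (s.y X₀ p₁ p₂ κ) s.x₁ := by
    intro p₁ p₂ κ
    by_contra hx
    refine hcon _ ⟨hN _ fun i hi => ?_, s.x₁, hx⟩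
    rw [← hs1]
    exact s.y_agree X₀ p₁ p₂ κ i (hs2 ▸ hi)
  obtain ⟨κ, hκ⟩ := s.core X₀ hE
  have hacc : ∀ p₁ p₂ κ', Acc E X₀ p M T (s.y X₀ p₁ p₂ κ') s.x₁ ↔
      s.AccW E X₀ p M [] s.T p₁ p₂ κ' := by
    intro p₁ p₂ κ'
    unfold Acc Setup.AccW
    rw [s.x₁_len, hs4]
  obtain ⟨F, hF, -⟩ := s.big X₀ (ι := Unit) (by
      rw [Fintype.card_unit]
      exact Nat.one_le_two_pow) fun _ => ()
  obtain ⟨p₁, -, p₂, -, h2, h3⟩ := hκ p M [] s.T hs3.ge (by simp) le_rfl F hF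
  have h4 := (hw p₁ (co p₂) (κ p₁)).1 (s.test_yes X₀ h2 (κ p₁))
  have h5 := (hw p₁ (co p₁) (κ p₁)).2 ((hacc _ _ _).2 (h3.1 ((hacc _ _ _).1 h4)))
  exact s.test_co X₀ p₁ (κ p₁) h5

theorem dense_N (hE : IsAdd k E) (p : List Bool) (M : Machine) {T : ℕ → ℕ} (hT : Sub T) :
    Dense (ReqN E X₀ p M T) := by
  classical
  rw [dense_iff_inter_open]
  rintro U hU ⟨y₀, hy₀⟩
  by_contra hcon
  rw [not_nonempty_iff_eq_empty, eq_empty_iff_forall_notMem] at hcon
  obtain ⟨N, hN⟩ := exists_sy hU hy₀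
  obtain ⟨s, hs1, hs2, hs3, hs4⟩ := exists_setup k y₀ N p.length hT
  have hw : ∀ p₁ p₂ κ, s.x₁ ∉ Test (OO X₀ (s.y X₀ p₁ p₂ κ)) ↔
      NAcc E X₀ p M T (s.y X₀ p₁ p₂ κ) s.x₁ := by
    intro p₁ p₂ κ
    by_contra hx
    refine hcon _ ⟨hN _ fun i hi => ?_, s.x₁, hx⟩
    rw [← hs1]
    exact s.y_agree X₀ p₁ p₂ κ i (hs2 ▸ hi)
  obtain ⟨κ, hκ⟩ := s.core X₀ hE
  have hacc : ∀ p₁ p₂ κ' w, AcceptsIn (join (EO E X₀ (s.y X₀ p₁ p₂ κ'))
      (SP E X₀ (s.y X₀ p₁ p₂ κ') p)) M s.x₁ w (T s.x₁.length) ↔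
      s.AccW E X₀ p M w s.T p₁ p₂ κ' := by
    intro p₁ p₂ κ' w
    unfold Setup.AccW
    rw [s.x₁_len, hs4]
  have h0 : ∀ p₁, ∃ x : Wc s.T, s.AccW E X₀ p M (wd x) s.T p₁ (co p₁) (κ p₁) := by
    intro p₁
    obtain ⟨w, hw1, hw2⟩ := (hw p₁ (co p₁) (κ p₁)).1 (s.test_co X₀ p₁ (κ p₁))
    obtain ⟨x, rfl⟩ := wd_surj (t := s.T) (by rwa [s.x₁_len, ← hs4] at hw1)
    exact ⟨x, (hacc _ _ _ _).1 hw2⟩
  choose g hg using h0
  obtain ⟨F, hF, v, hv⟩ := s.big X₀ (ι := Wc s.T) ((wc_card _).trans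
    (Nat.pow_le_pow_right (by norm_num) (by omega))) g
  obtain ⟨p₁, hp, p₂, hp', h2, h3⟩ := hκ p M (wd v) s.T hs3.ge (wd_len v) le_rfl F hF
  refine (hw p₁ (co p₂) (κ p₁)).2 ⟨wd v, ?_, (hacc _ _ _ _).2 (h3.2 ?_)⟩
    (s.test_yes X₀ h2 (κ p₁))
  · rw [s.x₁_len, ← hs4]
    exact wd_len v
  · rw [← hv p₁ hp]
    exact hg p₁

theorem dense_A (a b : ℕ) : Dense (ReqA E X₀ a b) := by
  classical
  rw [dense_iff_inter_open]
  rintro U hU ⟨y₀, hy₀⟩
  by_contra hcon
  rw [not_nonempty_iff_eq_empty, eq_empty_iff_forall_notMem] at hcon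
  obtain ⟨N, hN⟩ := exists_sy hU hy₀
  let i₀ : Idx := .inr (a, b, false :: List.replicate N true)
  let y₁ : Par := Function.update y₀ i₀ true
  have h1 : y₁ ∈ U := by
    refine hN _ fun i hi => Function.update_of_ne ?_ _ _
    rintro rfl
    change a + b + (false :: List.replicate N true).length ≤ N at hi
    rw [List.length_cons, List.length_replicate] at hi
    omega
  refine hcon y₁ ⟨h1, Or.inr (mem_iUnion.2 ⟨N, ?_, ?_⟩)⟩
  · exact Function.update_self i₀ true y₀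
  · intro y' hy' q hq
    let y₂ : Par := Sum.elim (fun r => y' (.inl r)) (fun i => y₀ (.inr i))
    have h2 : y₂ ∈ U := by
      refine hN _ fun i hi => ?_
      match i, hi with
      | .inl r, hi => exact (hy' r hi).trans (Function.update_of_ne (by simp [i₀]) _ _)
      | .inr i, hi => rfl
    have h3 : EO E X₀ y₂ = EO E X₀ y' := EO_congr E X₀ fun r => rfl
    exact hcon y₂ ⟨h2, Or.inl ⟨q, by rw [h3]; exact hq⟩⟩

end ESY.Alg.Gen
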