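import Mathlib

/-!
# The easy half of the Kuratowski-Ulam theorem

Countably many dense open subsets of `(α ⊕ β → Bool)` with `β` countable: for comeagerly many
`R : α → Bool` there is a `κ : β → Bool` such that `(R, κ)` is in all of them.
-/

namespace ESY.Alg.Gen

open Set Topology Filter TopologicalSpace

theorem continuous_elim {α β : Type} :
    Continuous fun p : (α → Bool) × (β → Bool) => (Sum.elim p.1 p.2 : α ⊕ β → Bool) := by
  refine continuous_pi fun x => ?_
  rcases x with a | b
  · exact (continuous_apply a).comp continuous_fst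
  · exact (continuous_apply b).comp continuous_snd

/-- for a dense open set `D` and a nonempty open set `V` of the second factor, comeagerly many
`R` have a `κ` in `V` with `(R, κ)` in `D` -/
theorem ku_step {α β : Type} {D : Set (α ⊕ β → Bool)} (hD : IsOpen D) (hd : Dense D)
    {V : Set (β → Bool)} (hV : IsOpen V) (hVn : V.Nonempty) :
    ∀ᶠ R in residual (α → Bool), ∃ κ ∈ V, Sum.elim R κ ∈ D := by
  have ho : IsOpen {R : α → Bool | ∃ κ ∈ V, Sum.elim R κ ∈ D} := by
    have h : {R : α → Bool | ∃ κ ∈ V, Sum.elim R κ ∈ D} =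
        ⋃ κ ∈ V, (fun R => Sum.elim R κ) ⁻¹' D := by
      ext R
      simp only [mem_ofPred_eq, mem_iUnion, mem_preimage, exists_prop]
    rw [h]
    refine isOpen_biUnion fun κ _ => hD.preimage ?_
    exact continuous_elim.comp (continuous_id.prodMk continuous_const)
  have hdn : Dense {R : α → Bool | ∃ κ ∈ V, Sum.elim R κ ∈ D} := by
    rw [dense_iff_inter_open]
    intro U hU hUn
    obtain ⟨R₀, hR₀⟩ := hUn
    obtain ⟨κ₀, hκ₀⟩ := hVn
    have hW : IsOpen {f : α ⊕ β → Bool | (fun a => f (.inl a)) ∈ U ∧ (fun b => f (.inr b)) ∈ V} := by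
      refine IsOpen.inter (hU.preimage ?_) (hV.preimage ?_)
      · exact continuous_pi fun a => continuous_apply _
      · exact continuous_pi fun b => continuous_apply _
    obtain ⟨f, hfW, hfD⟩ := hd.inter_open_nonempty _ hW ⟨Sum.elim R₀ κ₀, hR₀, hκ₀⟩
    refine ⟨fun a => f (.inl a), hfW.1, fun b => f (.inr b), hfW.2, ?_⟩
    have h : Sum.elim (fun a => f (.inl a)) (fun b => f (.inr b)) = f := Sum.elim_comp_inl_inr f
    rwa [h]
  exact residual_of_dense_open ho hdn

/-- **Kuratowski-Ulam**, the easy half. -/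
theorem ku {α β ι : Type} [Countable β] [Countable ι] (D : ι → Set (α ⊕ β → Bool))
    (hD : ∀ i, IsOpen (D i)) (hd : ∀ i, Dense (D i)) :
    ∀ᶠ R in residual (α → Bool), ∃ κ : β → Bool, ∀ i, Sum.elim R κ ∈ D i := by
  have h2 : ∀ᶠ R in residual (α → Bool), ∀ i, ∀ V ∈ countableBasis (β → Bool),
      ∃ κ ∈ V, Sum.elim R κ ∈ D i := by
    rw [eventually_countable_forall]
    intro i
    exact (eventually_countable_ball (countable_countableBasis _)).2 fun V hV =>
      ku_step (hD i) (hd i) (isOpen_of_mem_countableBasis hV) (nonempty_of_mem_countableBasis hV)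
  filter_upwards [h2] with R hR
  have ho : ∀ i, IsOpen {κ : β → Bool | Sum.elim R κ ∈ D i} := fun i =>
    (hD i).preimage (continuous_elim.comp (continuous_const.prodMk continuous_id))
  have hdn : ∀ i, Dense {κ : β → Bool | Sum.elim R κ ∈ D i} := by
    intro i
    rw [(isBasis_countableBasis (β → Bool)).dense_iff]
    intro V hV _
    obtain ⟨κ, hκV, hκ⟩ := hR i V hV
    exact ⟨κ, hκV, hκ⟩
  obtain ⟨κ, hκ⟩ := (dense_iInter_of_isOpen ho hdn).nonempty
  exact ⟨κ, fun i => mem_iInter.1 hκ i⟩

/-- the same, with the conclusion for a dense set of `κ`: every nonempty open set of the second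
factor contains one -/
theorem ku_dense {α β ι : Type} [Countable β] [Countable ι] (D : ι → Set (α ⊕ β → Bool))
    (hD : ∀ i, IsOpen (D i)) (hd : ∀ i, Dense (D i)) :
    ∀ᶠ R in residual (α → Bool), ∀ᶠ κ in residual (β → Bool), ∀ i, Sum.elim R κ ∈ D i := by
  have h2 : ∀ᶠ R in residual (α → Bool), ∀ i, ∀ V ∈ countableBasis (β → Bool),
      ∃ κ ∈ V, Sum.elim R κ ∈ D i := by
    rw [eventually_countable_forall]
    intro i
    exact (eventually_countable_ball (countable_countableBasis _)).2 fun V hV =>
      ku_step (hD i) (hd i) (isOpen_of_mem_countableBasis hV) (nonempty_of_mem_countableBasis hV)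
  filter_upwards [h2] with R hR
  rw [eventually_countable_forall]
  intro i
  refine residual_of_dense_open (s := {κ : β → Bool | Sum.elim R κ ∈ D i})
    ((hD i).preimage (continuous_elim.comp (continuous_const.prodMk continuous_id))) ?_
  rw [(isBasis_countableBasis (β → Bool)).dense_iff]
  intro V hV _
  obtain ⟨κ, hκV, hκ⟩ := hR i V hV
  exact ⟨κ, hκV, hκ⟩

end ESY.Alg.Gen
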