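import Pool.Agent.Lib.MP_80aaf5_lc.AlgGen.Dense
import Pool.Agent.Lib.MP_80aaf5_lc.AlgGen.KU
import Pool.Agent.Lib.MP_b9add9_lc.Alg.Sim
import Pool.Agent.Lib.MP_80aaf5_lc.Few2.Final

/-!
# Generic oracles with additive extensions
-/

namespace ESY.Alg.Gen

open ESY ESY.Few Set Topology Filter
open ESY.Few2 (inTime_mono inNTime_mono)

variable (E : Oracle → Oracle) (X₀ : Oracle) {k : ℕ}

/-- all the requirements hold, for generic oracles and suitable other parameters -/
theorem generic_req (hE : IsAdd k E) (T : ℕ → ℕ → ℕ) (hT : Subexponential T) :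
    ∀ᶠ R in residual Oracle, ∃ κ : ℕ × ℕ × List Bool → Bool,
      (∀ p M c, (Sum.elim R κ : Par) ∈ ReqD E X₀ p M (T c)) ∧
      (∀ p M c, (Sum.elim R κ : Par) ∈ ReqN E X₀ p M (T c)) ∧
      ∀ a b, (Sum.elim R κ : Par) ∈ ReqA E X₀ a b := by
  have h := ku (α := List Bool) (β := ℕ × ℕ × List Bool)
    (ι := Fin 3 × List Bool × Machine × ℕ × ℕ × ℕ)
    (fun i => if i.1 = 0 then ReqD E X₀ i.2.1 i.2.2.1 (T i.2.2.2.1)
      else if i.1 = 1 then ReqN E X₀ i.2.1 i.2.2.1 (T i.2.2.2.1)
      else ReqA E X₀ i.2.2.2.2.1 i.2.2.2.2.2)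
    (by
      rintro ⟨i, p, M, c, a, b⟩
      simp only
      split_ifs
      · exact isOpen_reqD E X₀ hE _ _ _
      · exact isOpen_reqN E X₀ hE _ _ _
      · exact isOpen_reqA E X₀ hE _ _)
    (by
      rintro ⟨i, p, M, c, a, b⟩
      simp only
      split_ifs
      · exact dense_D E X₀ hE _ _ (hT c)
      · exact dense_N E X₀ hE _ _ (hT c)
      · exact dense_A E X₀ _ _)
  filter_upwards [h] with R hR
  obtain ⟨κ, hκ⟩ := hR
  obtain ⟨M₀⟩ : Nonempty Machine := ⟨(nu 0).1⟩
  refine ⟨κ, fun p M c => ?_, fun p M c => ?_, fun a b => ?_⟩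
  · have := hκ (0, p, M, c, 0, 0)
    simpa using this
  · have := hκ (1, p, M, c, 0, 0)
    simpa using this
  · have := hκ (2, [], M₀, 0, a, b)
    simpa using this

/-- the language -/
theorem inNP_test (O : Oracle) : InNP O (Test O) := by
  have h := ESY.Uni.inNP_pre O []
  simpa using h

theorem inNP_test_join (O T : Oracle) : InNP (join O T) (Test O) := by
  have h := inNP_join O T []
  simpa using h

/-- For generic `R` there is one oracle `S` that contains separators of all disjoint `NP`-pairs,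
while `NP` relative to `X₀ ⊕ R` remains difficult. -/
theorem main1 (hE : IsAdd k E) (T : ℕ → ℕ → ℕ) (hT : Subexponential T) :
    ∀ᶠ R in residual Oracle, ∃ S : Oracle,
    (∀ U V, NPPair (join (join X₀ R) (E (join X₀ R))) U V →
      ∃ p, Separator U V fun q => S (p ++ q)) ∧
    ∀ p : List Bool,
      ¬ InTime T (join (join (join X₀ R) (E (join X₀ R))) fun q => S (p ++ q))
        (Test (join X₀ R)) ∧
      ¬ InNTime T (join (join (join X₀ R) (E (join X₀ R))) fun q => S (p ++ q))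
        (Test (join X₀ R))ᶜ := by
  filter_upwards [generic_req E X₀ hE T hT] with R hR
  obtain ⟨κ, hD, hN, hA⟩ := hR
  refine ⟨SS E X₀ (Sum.elim R κ), fun U V hUV => ?_, fun p => ⟨?_, ?_⟩⟩
  · obtain ⟨hU, hV, hdisj⟩ := hUV
    obtain ⟨a, ha⟩ := (inNP_iff _ _).1 hU
    obtain ⟨b, hb⟩ := (inNP_iff _ _).1 hV
    have hdis : ∀ q, ¬ (Tr (EO E X₀ (Sum.elim R κ)) a q ∧ Tr (EO E X₀ (Sum.elim R κ)) b q) :=
      fun q h => Set.disjoint_left.1 hdisj ((ha q).2 h.1) ((hb q).2 h.2)
    rcases hA a b with h | h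
    · obtain ⟨q, hq⟩ := h
      exact absurd hq (hdis q)
    · obtain ⟨m, hm1, hm2⟩ := mem_iUnion.1 h
      have hS : ∀ q, SS E X₀ (Sum.elim R κ) (pre a b m ++ q) =
          sepT E X₀ (Sum.elim R κ) a b m q := fun q => by
        rw [← cd_eq]
        exact ss_act E X₀ hm1 hm2 q
      refine ⟨pre a b m, fun x hx => ?_, fun x hx => ?_⟩
      · simp only [hS]
        exact if_pos ((ha x).1 hx)
      · simp only [hS]
        unfold sepT
        rw [if_neg fun h => hdis x ⟨h, (hb x).1 hx⟩]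
        exact if_pos ((hb x).1 hx)
  · rintro ⟨M, c, h⟩
    obtain ⟨x, hx⟩ := hD p M c
    exact hx (h x)
  · rintro ⟨M, c, h⟩
    obtain ⟨x, hx⟩ := hN p M c
    exact hx (h x)

/-- The final theorem. -/
theorem main (hE : AdditiveExt E) (T : ℕ → ℕ → ℕ) (hT : Subexponential T) :
    ∀ᶠ R in residual Oracle, ∃ S : Oracle,
    (∀ U V, NPPair (join (join X₀ R) (E (join X₀ R))) U V →
      ∃ p, Separator U V fun q => S (p ++ q)) ∧
    ∀ p : List Bool,
      ¬ InP (join (join (join X₀ R) (E (join X₀ R))) fun q => S (p ++ q))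
        (Test (join X₀ R)) ∧
      ¬ InTime T (join (join (join X₀ R) (E (join X₀ R))) fun q => S (p ++ q))
        (Test (join X₀ R)) ∧
      ¬ InNTime T (join (join (join X₀ R) (E (join X₀ R))) fun q => S (p ++ q))
        (Test (join X₀ R))ᶜ := by
  obtain ⟨k, hk⟩ := hE
  let T' : ℕ → ℕ → ℕ := fun c => if c % 2 = 0 then T (c / 2) else poly (c / 2)
  have hT' : Subexponential T' := by
    intro c k
    by_cases h : c % 2 = 0
    · simpa only [T', h, if_true] using hT (c / 2) k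
    · simpa only [T', h, if_false] using subexponential_poly (c / 2) k
  have h0 : ∀ c, ∃ c', T' c' = T c := fun c => ⟨2 * c, by simp [T']⟩
  have h1 : ∀ c, ∃ c', T' c' = poly c := by
    intro c
    refine ⟨2 * c + 1, ?_⟩
    have h2 : (2 * c + 1) % 2 ≠ 0 := by omega
    have h3 : (2 * c + 1) / 2 = c := by omega
    simp only [T', h2, if_false, h3]
  filter_upwards [main1 E X₀ hk T' hT'] with R hR
  obtain ⟨S, hS, hL⟩ := hR
  exact ⟨S, hS, fun p => ⟨fun h => (hL p).1 (inTime_mono h1 h),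
    fun h => (hL p).1 (inTime_mono h0 h), fun h => (hL p).2 (inNTime_mono h0 h)⟩⟩

end ESY.Alg.Gen
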