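import Pool.Agent.Lib.MP_80aaf5_lc.AlgGen.Final
import Pool.Agent.Lib.MP_80aaf5_lc.Btw.Closure

/-!
# No NP-hard disjoint NP-pair relative to generic oracles with additive extensions
-/

namespace ESY.Alg.Gen

open ESY Set Filter

theorem final (E : Oracle → Oracle) (hE : AdditiveExt E) (X : Oracle) (T : ℕ → ℕ → ℕ)
    (hT : Subexponential T) : ∀ᶠ R in residual Oracle,
      (∀ B : Oracle, InP B {s | join X R s = true} →
        InP (join (join X R) (E (join X R))) {s | B s = true} → ESYRel B) ∧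
      ∃ (S : Oracle) (L : Set (List Bool)), InNP (join X R) L ∧
        (∀ U V, DisjointNPPair (join (join X R) (E (join X R))) U V →
          ∃ p : List Bool, Separator U V fun q => S (p ++ q)) ∧
        ∀ p : List Bool,
          ¬ InTime T (join (join (join X R) (E (join X R))) fun q => S (p ++ q)) L ∧
          ¬ InNTime T (join (join (join X R) (E (join X R))) fun q => S (p ++ q)) Lᶜ := by
  filter_upwards [main E X hE T hT] with R hR
  obtain ⟨S, hS, hL⟩ := hR
  refine ⟨?_, S, Test (join X R), inNP_test _, fun U V h =>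
    hS U V ⟨h.2.2.1, h.2.2.2.1, h.2.2.2.2⟩, fun p => (hL p).2⟩
  rintro B hAB hBE ⟨U, V, ⟨-, -, hU, hV, hdis⟩, hhard⟩
  obtain ⟨p, hp⟩ := hS U V ⟨Btw.btw_np hBE hU, Btw.btw_np hBE hV, hdis⟩
  exact (hL p).1 (Btw.btw_join _ hBE (hhard _ hp _ (Btw.btw_np hAB (inNP_test _))))

end ESY.Alg.Gen
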