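import Pool.Agent.Lib.MP_80aaf5_lc.AlgGen.Space

/-!
# The crossing argument
-/

namespace ESY.Alg.Gen

open ESY ESY.Few Set
open ESY.Uni (inp inp_length inp_inj)

/-- The data of the density argument. -/
structure Setup (k : ℕ) : Type where
  y₀ : Par
  N : ℕ
  c : ℕ
  n : ℕ
  hn : 2 ≤ n
  hNn : N ≤ n
  L : ℕ
  ℓ : ℕ
  hℓ : ∀ a ≤ N, ∀ q : List Bool, q.length ≤ L → (stm a q).length ≤ ℓ
  hN : ∀ a ≤ N, ∀ q : List Bool, q.length ≤ N → bd k (2 * (stm a q).length) ≤ 2 * n
  T : ℕ
  hT : n + 2 * T + c ≤ L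
  hB : 2 * T + 1 + ((2 * ℓ + 2 * bd k (2 * ℓ) * ℓ + 1) ^ 2 + 2 * bd k L) * T < 2 ^ n

namespace Setup

variable {k : ℕ} (E : Oracle → Oracle) (X₀ : Oracle) (s : Setup k)

/-- the frame -/
def f : Frame where
  n := s.n
  X := fun σ => σ :: List.replicate (s.n - 1) false
  O := OO X₀ s.y₀
  hX := fun σ => by
    have := s.hn
    rw [List.length_cons, List.length_replicate]
    omega
  hXi := fun h => absurd (List.cons.inj h).1 (by decide)
  hn := s.hn

/-- the input of the language -/
def x₁ : List Bool := false :: List.replicate (s.n - 1) false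

theorem x₁_len : s.x₁.length = s.n := by
  have := s.hn
  rw [x₁, List.length_cons, List.length_replicate]
  omega

theorem fn : (s.f X₀).n = s.n := rfl

/-- the constructed parameters: plants `p`, `p'`, values `κ` of the common oracle -/
noncomputable def y (p p' : Bool × (s.f X₀).W → Bool) (κ : Oracle) : Par
  | .inl r => (s.f X₀).Wd p p' (true :: r)
  | .inr (a, b, z) => if a + b + z.length ≤ s.N then s.y₀ (.inr (a, b, z)) else
      match z with
      | true :: z' => κ (inp a b false z')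
      | _ => false

theorem OO_y (p p' : Bool × (s.f X₀).W → Bool) (κ : Oracle) :
    OO X₀ (s.y X₀ p p' κ) = (s.f X₀).Wd p p' := by
  have h : ∀ r : List Bool, (∀ r', r ≠ true :: r') → (s.f X₀).Wd p p' r = OO X₀ s.y₀ r := by
    intro r hr
    refine Frame.wd_old p p' ?_
    rintro ⟨σ, w, j, -, hat⟩
    obtain ⟨r', rfl⟩ := Frame.at_cons hat
    exact hr r' rfl
  funext r
  match r with
  | [] => exact (h [] (by simp)).symm
  | false :: r => exact (h (false :: r) (by simp)).symm
  | true :: r => rfl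

theorem EO_y (p p' : Bool × (s.f X₀).W → Bool) (κ : Oracle) :
    EO E X₀ (s.y X₀ p p' κ) = exo E ((s.f X₀).Wd p p') := by
  rw [EO, OO_y]

theorem y_short (p p' : Bool × (s.f X₀).W → Bool) (κ : Oracle) {r : List Bool}
    (hr : r.length ≤ s.N) : s.y X₀ p p' κ (.inl r) = s.y₀ (.inl r) := by
  have hN := s.hNn
  have hn := s.hn
  change (s.f X₀).Wd p p' (true :: r) = s.y₀ (.inl r)
  rw [Frame.wd_short p p' (by rw [List.length_cons, fn]; omega)]
  rfl

theorem y_agree (p p' : Bool × (s.f X₀).W → Bool) (κ : Oracle) :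
    ∀ i, sy i ≤ s.N → s.y X₀ p p' κ i = s.y₀ i := by
  intro i hi
  match i, hi with
  | .inl r, hi => exact s.y_short X₀ p p' κ hi
  | .inr (a, b, z), hi => exact if_pos hi

variable {E} (hE : IsAdd k E)

include hE

theorem tr_old {e : ℕ} {q : List Bool} (p p' : Bool × (s.f X₀).W → Bool)
    (h : bd k (2 * (stm e q).length) ≤ 2 * s.n) :
    Tr (EO E X₀ s.y₀) e q ↔ Tr (exo E ((s.f X₀).Wd p p')) e q := by
  refine tr_congr fun r hr => ?_
  refine exo_congr hE fun r' hr' => ?_
  rw [Frame.wd_short p p' (hr'.trans ((bd_mono hr).trans h))]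
  rfl

omit hE

/-- logarithm of the number of rectangles of an `NP` question -/
def κ₀ : ℕ := 2 * s.ℓ + 2 * bd k (2 * s.ℓ) * s.ℓ

/-- logarithm of the number of classes of a query -/
def lam : ℕ := (s.κ₀ + 1) ^ 2 + 2 * bd k s.L

include hE

theorem cov_q {e : ℕ} {q : List Bool} (h : (stm e q).length ≤ s.ℓ) :
    Cov (2 ^ s.κ₀) fun p p' => Tr (exo E ((s.f X₀).Wd p p')) e q := by
  have h1 := cov_tr (K := 2 ^ bd k (2 * s.ℓ)) (L := 2 * s.ℓ)
    (E := fun p p' => exo E ((s.f X₀).Wd p p'))
    (fun r hr => msg_le hE (s.f X₀) hr) Nat.one_le_two_pow e q (by omega)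
  refine h1.mono ?_
  rw [κ₀, pow_add]
  refine Nat.mul_le_mul (Nat.pow_le_pow_right (by norm_num) (by omega)) ?_
  rw [← pow_add, ← pow_mul]
  refine Nat.pow_le_pow_right (by norm_num) ?_
  calc (bd k (2 * s.ℓ) + bd k (2 * s.ℓ)) * (stm e q).length
      ≤ (bd k (2 * s.ℓ) + bd k (2 * s.ℓ)) * s.ℓ := Nat.mul_le_mul_left _ h
    _ = 2 * bd k (2 * s.ℓ) * s.ℓ := by ring

omit hE

theorem lab_const {α : Type} {c : α → α} {Z : Bool → α → α → Prop} (k : ℕ) (v : Bool)
    (h : ∀ p p', Z v p p') : Lab c (2 ^ k) Z :=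
  ⟨Unit, inferInstance, fun _ => (), fun _ => v, by
    rw [Fintype.card_unit]
    exact Nat.one_le_two_pow, fun p p' _ => h p (c p')⟩

variable (E) in
/-- the answer to the query `r` -/
noncomputable def an (p p' : Bool × (s.f X₀).W → Bool) (κ : Oracle) (r : List Bool) : Bool :=
  join (EO E X₀ (s.y X₀ p p' κ)) (SS E X₀ (s.y X₀ p p' κ)) r

include hE

theorem lab_q {r : List Bool} (hr : r.length ≤ s.L) :
    Lab co (2 ^ s.lam) fun v p p' => ∀ κ : Oracle, (∀ s', r = true :: s' → κ s' = v) →
      s.an E X₀ p p' κ r = v := by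
  classical
  match r, hr with
  | [], _ => exact lab_const _ false fun _ _ _ _ => rfl
  | false :: r, hr =>
    rw [List.length_cons] at hr
    have h1 := (msg_le hE (s.f X₀) (s := r) (L := s.L) (by omega)).lab co
    obtain ⟨ι, hι, g, lab, h2, h3⟩ := Lab.mono h1 (k' := 2 ^ s.lam) (by
      rw [← pow_add]
      exact Nat.pow_le_pow_right (by norm_num) (by rw [lam]; omega))
    refine ⟨ι, hι, g, lab, h2, fun p p' h κ _ => ?_⟩
    change EO E X₀ (s.y X₀ p (co p') κ) r = _
    rw [EO_y]
    exact h3 p p' h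
  | true :: r, hr =>
    rw [List.length_cons] at hr
    by_cases hcd : ∃ a b m q, r = cd a b m q
    · obtain ⟨a, b, m, q, rfl⟩ := hcd
      rw [cd_length] at hr
      have han : ∀ p p' κ, s.an E X₀ p p' κ (true :: cd a b m q) =
          SS E X₀ (s.y X₀ p p' κ) (cd a b m q) := fun _ _ _ => rfl
      by_cases hac : a + b + m + 1 ≤ s.N ∧ act s.y₀ a b m = true ∧ Fc E X₀ s.y₀ a b m
      · obtain ⟨hs, ha, hf⟩ := hac
        have hact : ∀ p p' κ, act (s.y X₀ p p' κ) a b m = true := by
          intro p p' κ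
          rw [← ha]
          refine s.y_agree X₀ p p' κ _ ?_
          change a + b + (false :: List.replicate m true).length ≤ s.N
          rw [List.length_cons, List.length_replicate]
          omega
        have hfc : ∀ p p' κ, Fc E X₀ (s.y X₀ p p' κ) a b m := fun p p' κ =>
          (fc_congr E X₀ fun r hr => s.y_short X₀ p p' κ (by omega)).2 hf
        have hdis : ∀ p p', ¬ (Tr (exo E ((s.f X₀).Wd p p')) a q ∧
            Tr (exo E ((s.f X₀).Wd p p')) b q) := by
          intro p p'
          have h1 := hfc p p' (fun _ => false) (s.y X₀ p p' fun _ => false) (fun _ _ => rfl) q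
          rwa [EO_y] at h1
        have hss : ∀ p p' κ, s.an E X₀ p p' κ (true :: cd a b m q) =
            if Tr (exo E ((s.f X₀).Wd p p')) a q then true else
            if Tr (exo E ((s.f X₀).Wd p p')) b q then false else
            if a + b + (m + 2 + q.length) ≤ s.N then s.y₀ (.inr (a, b, true :: tg m q)) else
            κ (cd a b m q) := by
          intro p p' κ
          rw [han, ss_act E X₀ (hact p p' κ) (hfc p p' κ)]
          unfold sepT
          rw [EO_y]
          congr 2
          have h2 : (true :: tg m q).length = m + 2 + q.length := by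
            rw [List.length_cons, tg_length]
            ring
          change (if a + b + (true :: tg m q).length ≤ s.N then s.y₀ (.inr (a, b, true :: tg m q))
            else κ (inp a b false (tg m q))) = _
          rw [h2]
          rfl
        by_cases hq : a + b + (m + 2 + q.length) ≤ s.N
        · have h1 : ∀ p p', Tr (exo E ((s.f X₀).Wd p p')) a q ↔ Tr (EO E X₀ s.y₀) a q :=
            fun p p' => (s.tr_old X₀ hE p p' (s.hN a (by omega) q (by omega))).symm
          have h2 : ∀ p p', Tr (exo E ((s.f X₀).Wd p p')) b q ↔ Tr (EO E X₀ s.y₀) b q :=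
            fun p p' => (s.tr_old X₀ hE p p' (s.hN b (by omega) q (by omega))).symm
          refine lab_const _ (if Tr (EO E X₀ s.y₀) a q then true else
            if Tr (EO E X₀ s.y₀) b q then false else s.y₀ (.inr (a, b, true :: tg m q)))
            fun p p' κ _ => ?_
          simp only [hss, h1 p p', h2 p p', if_pos hq]
        · have hk : (2 ^ s.κ₀ + 1) ^ Nat.size (2 ^ s.κ₀) ≤ 2 ^ s.lam := by
            have h1 : Nat.size (2 ^ s.κ₀) ≤ s.κ₀ + 1 := Nat.size_le.2
              (Nat.pow_lt_pow_right (by norm_num) (Nat.lt_succ_self _))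
            have h2 : 2 ^ s.κ₀ + 1 ≤ 2 ^ (s.κ₀ + 1) := by
              rw [pow_succ]
              have := Nat.one_le_two_pow (n := s.κ₀)
              omega
            calc (2 ^ s.κ₀ + 1) ^ Nat.size (2 ^ s.κ₀) ≤ (2 ^ s.κ₀ + 1) ^ (s.κ₀ + 1) :=
                  Nat.pow_le_pow_right (by omega) h1
              _ ≤ (2 ^ (s.κ₀ + 1)) ^ (s.κ₀ + 1) := Nat.pow_le_pow_left h2 _
              _ = 2 ^ ((s.κ₀ + 1) ^ 2) := by rw [← pow_mul, sq]
              _ ≤ 2 ^ s.lam := Nat.pow_le_pow_right (by norm_num) (by rw [lam]; omega)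
          obtain ⟨ι, hι, g, lab, h1, h2⟩ := (lab_of_cov co
            (s.cov_q X₀ hE (s.hℓ a (by omega) q (by omega)))
            (s.cov_q X₀ hE (s.hℓ b (by omega) q (by omega))) hdis).mono hk
          refine ⟨ι, hι, g, lab, h1, fun p p' h κ hκ => ?_⟩
          obtain ⟨h3, h4⟩ := h2 p p' h
          rw [hss, hκ _ rfl]
          cases hv : lab (g p)
          · rw [if_neg (h4 hv)]
            split_ifs <;> rfl
          · rw [if_neg (h3 hv), if_neg hq]
            split_ifs <;> rfl
      · refine lab_const _ false fun p p' κ _ => ?_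
        rw [han]
        refine ss_not E X₀ (fun h => hac ?_) q
        obtain ⟨h1, h2⟩ := h
        have hs : a + b + m + 1 ≤ s.N := by
          by_contra hcon
          have h3 : act (s.y X₀ p p' κ) a b m = false := by
            refine if_neg ?_
            rw [List.length_cons, List.length_replicate]
            omega
          rw [h3] at h1
          exact absurd h1 (by decide)
        refine ⟨hs, ?_, (fc_congr E X₀ fun r hr => s.y_short X₀ p p' κ (by omega)).1 h2⟩
        rw [← h1]
        refine (s.y_agree X₀ p p' κ _ ?_).symm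
        change a + b + (false :: List.replicate m true).length ≤ s.N
        rw [List.length_cons, List.length_replicate]
        omega
    · refine lab_const _ false fun p p' κ _ => ?_
      exact ss_other E X₀ _ hcd

omit hE

variable (E) in
/-- acceptance in a constructed world -/
def AccW (pf : List Bool) (M : Machine) (w : List Bool) (t : ℕ)
    (p p' : Bool × (s.f X₀).W → Bool) (κ : Oracle) : Prop :=
  AcceptsIn (join (EO E X₀ (s.y X₀ p p' κ)) (SP E X₀ (s.y X₀ p p' κ) pf)) M s.x₁ w t

include hE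

theorem core : ∃ κ : (Bool × (s.f X₀).W → Bool) → Oracle, ∀ (pf : List Bool) (M : Machine)
    (w : List Bool) (t : ℕ), pf.length ≤ s.c → w.length ≤ t → t ≤ s.T →
    ∀ F : Finset (Bool × (s.f X₀).W → Bool), 2 ^ (s.lam * s.T) * 2 ^ 2 ^ s.n < F.card →
    ∃ p ∈ F, ∃ p' ∈ F, (∃ u, p (false, u) = true ∧ p' (false, u) = false) ∧
      (s.AccW E X₀ pf M w t p (co p') (κ p) ↔ s.AccW E X₀ pf M w t p (co p) (κ p)) := by
  classical
  have hlab : ∀ r : List Bool, ∃ (ι : Type) (_ : Fintype ι) (g : (Bool × (s.f X₀).W → Bool) → ι)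
      (lab : ι → Bool), r.length ≤ s.L → Fintype.card ι ≤ 2 ^ s.lam ∧
        ∀ p p', g p = g p' → ∀ κ : Oracle, (∀ s', r = true :: s' → κ s' = lab (g p)) →
          s.an E X₀ p (co p') κ r = lab (g p) := by
    intro r
    by_cases hr : r.length ≤ s.L
    · obtain ⟨ι, hι, g, lab, h1, h2⟩ := s.lab_q X₀ hE hr
      exact ⟨ι, hι, g, lab, fun _ => ⟨h1, h2⟩⟩
    · exact ⟨Unit, inferInstance, fun _ => (), fun _ => false, fun h => absurd h hr⟩
  choose ι hι g lab hlab using hlab
  refine ⟨fun p q => lab (true :: q) (g (true :: q) p), ?_⟩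
  intro pf M w t hpf hw ht F hF
  have hlen : max s.x₁.length w.length + t ≤ s.n + 2 * s.T := by
    have h1 := s.x₁_len
    have : max s.x₁.length w.length ≤ s.n + t := max_le (by omega) (by omega)
    omega
  have hins : ∀ r : List Bool, r.length ≤ s.n + 2 * s.T → (ins pf r).length ≤ s.L := by
    intro r hr
    have h1 := ins_length pf r
    have h2 := s.hT
    omega
  have hcW : Fintype.card (s.f X₀).W = 2 ^ s.n := by
    rw [card_vector, Fintype.card_bool]
    rfl
  have hF' : (2 ^ s.lam) ^ t * 2 ^ Fintype.card (s.f X₀).W < F.card := by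
    rw [hcW]
    refine lt_of_le_of_lt (Nat.mul_le_mul_right _ ?_) hF
    rw [← pow_mul]
    exact Nat.pow_le_pow_right (by norm_num) (Nat.mul_le_mul_left _ ht)
  obtain ⟨p, hp, p', hp', h1, h2, h3⟩ := cross (L := s.n + 2 * s.T)
    (fun r hr => (hlab (ins pf r) (hins r hr)).1) (fun r => g (ins pf r))
    (fun r => lab (ins pf r)) M s.x₁ w t hlen false F hF'
  refine ⟨p, hp, p', hp', h2, ?_⟩
  -- both oracles give the answers `lab r (g r p)`
  have key : ∀ p'' : Bool × (s.f X₀).W → Bool, ∀ r : List Bool, r.length ≤ s.n + 2 * s.T →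
      g (ins pf r) p = g (ins pf r) p'' →
      join (EO E X₀ (s.y X₀ p (co p'') fun q => lab (true :: q) (g (true :: q) p)))
        (SP E X₀ (s.y X₀ p (co p'') fun q => lab (true :: q) (g (true :: q) p)) pf) r =
      lab (ins pf r) (g (ins pf r) p) := by
    intro p'' r hr hg
    refine (join_ins _ _ pf r).trans ?_
    refine (hlab (ins pf r) (hins r hr)).2 p p'' hg _ fun s' hs' => ?_
    rw [hs']
  have hacc : ∀ p'' : Bool × (s.f X₀).W → Bool,
      (∀ r ∈ asked (fun r => lab (ins pf r) (g (ins pf r) p)) M t (start M s.x₁ w),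
        g (ins pf r) p'' = g (ins pf r) p) →
      (s.AccW E X₀ pf M w t p (co p'') (fun q => lab (true :: q) (g (true :: q) p)) ↔
        AcceptsIn (fun r => lab (ins pf r) (g (ins pf r) p)) M s.x₁ w t) := by
    intro p'' h
    refine accepts_congr fun r hr => ?_
    exact key p'' r ((asked_start_len _ _ _ _ _ r hr).trans hlen) (h r hr).symm
  rw [hacc p' h3, hacc p fun r _ => rfl]

omit hE

theorem card_all : Fintype.card (Bool × (s.f X₀).W → Bool) = 2 ^ (2 * 2 ^ s.n) := by
  rw [Fintype.card_fun, Fintype.card_prod, Fintype.card_bool, card_vector, Fintype.card_bool]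
  rfl

/-- the numerical inequality -/
theorem num : 2 ^ (2 * s.T + 1) * (2 ^ (s.lam * s.T) * 2 ^ 2 ^ s.n) <
    Fintype.card (Bool × (s.f X₀).W → Bool) := by
  rw [card_all, ← pow_add, ← pow_add]
  refine Nat.pow_lt_pow_right (by norm_num) ?_
  have h1 := s.hB
  have h3 : s.lam = (2 * s.ℓ + 2 * bd k (2 * s.ℓ) * s.ℓ + 1) ^ 2 + 2 * bd k s.L := rfl
  rw [h3]
  omega

/-- the language at the input `x₁` -/
theorem test_y (p p' : Bool × (s.f X₀).W → Bool) (κ : Oracle) :
    s.x₁ ∈ Test (OO X₀ (s.y X₀ p p' κ)) ↔ ∃ u, p (false, u) = true ∧ p' (false, u) = true := by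
  rw [OO_y]
  exact Frame.test_X p p' false

theorem test_co (p : Bool × (s.f X₀).W → Bool) (κ : Oracle) :
    s.x₁ ∉ Test (OO X₀ (s.y X₀ p (co p) κ)) := by
  rw [test_y]
  rintro ⟨u, h1, h2⟩
  rw [co, h1] at h2
  exact absurd h2 (by decide)

theorem test_yes {p p' : Bool × (s.f X₀).W → Bool}
    (h : ∃ u, p (false, u) = true ∧ p' (false, u) = false) (κ : Oracle) :
    s.x₁ ∈ Test (OO X₀ (s.y X₀ p (co p') κ)) := by
  rw [test_y]
  obtain ⟨u, h1, h2⟩ := h
  exact ⟨u, h1, by rw [co, h2]; rfl⟩

/-- many plants with the same value of a function -/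
theorem big {ι : Type} [Fintype ι] (hι : Fintype.card ι ≤ 2 ^ (2 * s.T + 1))
    (g : (Bool × (s.f X₀).W → Bool) → ι) :
    ∃ F : Finset (Bool × (s.f X₀).W → Bool), 2 ^ (s.lam * s.T) * 2 ^ 2 ^ s.n < F.card ∧
      ∃ v, ∀ p ∈ F, g p = v := by
  classical
  have hne : (Finset.univ : Finset (Bool × (s.f X₀).W → Bool)).Nonempty := ⟨fun _ => false,
    Finset.mem_univ _⟩
  obtain ⟨F, -, h1, h2, h3⟩ := pigeon hι g Finset.univ hne
  obtain ⟨p₀, hp₀⟩ := h1
  refine ⟨F, ?_, g p₀, fun p hp => h3 p₀ hp₀ p hp⟩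
  by_contra hcon
  push Not at hcon
  have h4 := s.num X₀
  rw [Finset.card_univ] at h2
  have h5 := Nat.mul_le_mul_left (2 ^ (2 * s.T + 1)) hcon
  omega

end Setup

end ESY.Alg.Gen
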