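import Pool.Agent.Lib.MP_b9add9_lc.Alg.Space
import Pool.Agent.Lib.MP_80aaf5_lc.AlgGen.Ext

/-!
# One oracle that contains separators of all disjoint pairs
-/

namespace ESY.Alg.Gen

open ESY ESY.Few Set Topology Filter
open ESY.Uni (inp inp_length inp_inj)

/-- the tag `m` in front of `q` -/
def tg (m : ℕ) (q : List Bool) : List Bool := List.replicate m true ++ false :: q

theorem tg_length (m : ℕ) (q : List Bool) : (tg m q).length = m + 1 + q.length := by
  simp [tg]; ring

theorem tg_inj {m m' : ℕ} {q q' : List Bool} (h : tg m q = tg m' q') : m = m' ∧ q = q' :=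
  rep_inj h

/-- the question about `q` for the pair `(a, b)` with the tag `m` -/
def cd (a b m : ℕ) (q : List Bool) : List Bool := inp a b false (tg m q)

/-- the prefix of the questions for the pair `(a, b)` with the tag `m` -/
def pre (a b m : ℕ) : List Bool :=
  List.replicate a true ++ false :: (List.replicate b true ++
    false :: false :: (List.replicate m true ++ [false]))

theorem cd_eq (a b m : ℕ) (q : List Bool) : cd a b m q = pre a b m ++ q := by
  simp [cd, pre, inp, tg]

theorem cd_length (a b m : ℕ) (q : List Bool) :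
    (cd a b m q).length = a + b + m + 4 + q.length := by
  rw [cd, inp_length, tg_length]; ring

theorem cd_inj {a b m a' b' m' : ℕ} {q q' : List Bool} (h : cd a b m q = cd a' b' m' q') :
    a = a' ∧ b = b' ∧ m = m' ∧ q = q' := by
  obtain ⟨h1, h2, -, h3⟩ := inp_inj h
  obtain ⟨h4, h5⟩ := tg_inj h3
  exact ⟨h1, h2, h4, h5⟩

variable (E : Oracle → Oracle) (X₀ : Oracle)

/-- the extended oracle of a parameter -/
def EO (y : Par) : Oracle := exo E (OO X₀ y)

theorem clopen_EO {k : ℕ} (hE : IsAdd k E) (s : List Bool) : IsClopen {y | EO E X₀ y s = true} := by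
  refine clopen_of_local fun y₀ => ?_
  have h1 : ∀ r : List Bool, ∃ V : Set Par, IsOpen V ∧ y₀ ∈ V ∧ ∀ y ∈ V, OO X₀ y r = OO X₀ y₀ r := by
    intro r
    obtain ⟨V, hV, hy, hVP⟩ := local_of_clopen (clopen_OO X₀ r) y₀
    exact ⟨V, hV, hy, fun y hyy => Bool.eq_iff_iff.2 (hVP y hyy)⟩
  choose V hV hyV hVP using h1
  have hfin : {r : List Bool | r.length ≤ bd k s.length}.Finite := List.finite_length_le Bool _
  refine ⟨⋂ r ∈ hfin.toFinset, V r, isOpen_biInter_finset fun s _ => hV s,
    by simpa using fun s _ => hyV s, fun y hy => ?_⟩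
  simp only [mem_iInter] at hy
  have : EO E X₀ y s = EO E X₀ y₀ s :=
    exo_congr hE fun r hr => hVP r y (hy r (by simpa using hr))
  rw [this]

theorem clopen_trE {k : ℕ} (hE : IsAdd k E) (e : ℕ) (x : List Bool) :
    IsClopen {y | Tr (EO E X₀ y) e x} := clopen_tr fun s _ => clopen_EO E X₀ hE s

/-- the pair `(a, b)` is disjoint for all parameters with the same values of the oracle on the
strings of length at most `m` -/
def Fc (y : Par) (a b m : ℕ) : Prop :=
  ∀ y' : Par, (∀ r : List Bool, r.length ≤ m → y' (.inl r) = y (.inl r)) →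
    ∀ q, ¬ (Tr (EO E X₀ y') a q ∧ Tr (EO E X₀ y') b q)

/-- the pair `(a, b)` is activated at the tag `m` -/
def act (y : Par) (a b m : ℕ) : Bool := y (.inr (a, b, false :: List.replicate m true))

open Classical in
/-- the separator of the pair `(a, b)` for the tag `m` -/
noncomputable def sepT (y : Par) (a b m : ℕ) : Oracle := fun q =>
  if Tr (EO E X₀ y) a q then true else if Tr (EO E X₀ y) b q then false else
    y (.inr (a, b, true :: tg m q))

open Classical in
/-- the common oracle -/
noncomputable def SS (y : Par) : Oracle := fun s =>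
  decide (∃ a b m q, s = cd a b m q ∧ act y a b m = true ∧ Fc E X₀ y a b m ∧
    sepT E X₀ y a b m q = true)

theorem ss_cd (y : Par) (a b m : ℕ) (q : List Bool) : SS E X₀ y (cd a b m q) = true ↔
    act y a b m = true ∧ Fc E X₀ y a b m ∧ sepT E X₀ y a b m q = true := by
  classical
  unfold SS
  rw [decide_eq_true_eq]
  constructor
  · rintro ⟨a', b', m', q', h, h1⟩
    obtain ⟨rfl, rfl, rfl, rfl⟩ := cd_inj h
    exact h1
  · exact fun h => ⟨a, b, m, q, rfl, h⟩

theorem ss_other (y : Par) {s : List Bool} (h : ¬ ∃ a b m q, s = cd a b m q) :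
    SS E X₀ y s = false := by
  classical
  unfold SS
  rw [decide_eq_false_iff_not]
  rintro ⟨a, b, m, q, h1, -⟩
  exact h ⟨a, b, m, q, h1⟩

theorem ss_act {y : Par} {a b m : ℕ} (h : act y a b m = true) (h' : Fc E X₀ y a b m)
    (q : List Bool) : SS E X₀ y (cd a b m q) = sepT E X₀ y a b m q := by
  rw [Bool.eq_iff_iff, ss_cd]
  exact ⟨fun h => h.2.2, fun h1 => ⟨h, h', h1⟩⟩

theorem ss_not {y : Par} {a b m : ℕ} (h : ¬ (act y a b m = true ∧ Fc E X₀ y a b m))
    (q : List Bool) : SS E X₀ y (cd a b m q) = false := by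
  rw [← Bool.not_eq_true, ss_cd]
  exact fun h' => h ⟨h'.1, h'.2.1⟩

theorem fc_congr {y y' : Par} {a b m : ℕ}
    (h : ∀ r : List Bool, r.length ≤ m → y' (.inl r) = y (.inl r)) :
    Fc E X₀ y' a b m ↔ Fc E X₀ y a b m := by
  constructor
  · exact fun h1 y'' h2 => h1 y'' fun r hr => (h2 r hr).trans (h r hr).symm
  · exact fun h1 y'' h2 => h1 y'' fun r hr => (h2 r hr).trans (h r hr)

theorem clopen_fc (a b m : ℕ) : IsClopen {y | Fc E X₀ y a b m} := by
  refine clopen_of_local fun y₀ => ?_
  have hfin : {r : List Bool | r.length ≤ m}.Finite := List.finite_length_le Bool m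
  refine ⟨⋂ r ∈ hfin.toFinset, {y : Par | y (.inl r) = y₀ (.inl r)},
    isOpen_biInter_finset fun r _ => ?_, by simp, fun y hy => fc_congr E X₀ fun r hr => ?_⟩
  · exact ((isClopen_discrete ({y₀ (.inl r)} : Set Bool)).preimage
      (continuous_apply (Sum.inl r : Idx))).2
  · simp only [mem_iInter] at hy
    exact hy r (by simpa using hr)

theorem clopen_sepT {k : ℕ} (hE : IsAdd k E) (a b m : ℕ) (q : List Bool) :
    IsClopen {y | sepT E X₀ y a b m q = true} := by
  have h1 : {y | sepT E X₀ y a b m q = true} =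
      {y | Tr (EO E X₀ y) a q} ∪ ({y | Tr (EO E X₀ y) b q}ᶜ ∩
        {y | y (.inr (a, b, true :: tg m q)) = true}) := by
    ext y
    simp only [mem_ofPred_eq, mem_union, mem_inter_iff, mem_compl_iff, sepT]
    split_ifs <;> simp_all
  rw [h1]
  exact (clopen_trE E X₀ hE a q).union ((clopen_trE E X₀ hE b q).compl.inter (clopen_coord _))

theorem clopen_ss {k : ℕ} (hE : IsAdd k E) (s : List Bool) :
    IsClopen {y | SS E X₀ y s = true} := by
  by_cases h : ∃ a b m q, s = cd a b m q
  · obtain ⟨a, b, m, q, rfl⟩ := h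
    have h1 : {y | SS E X₀ y (cd a b m q) = true} =
        {y : Par | y (.inr (a, b, false :: List.replicate m true)) = true} ∩
          ({y | Fc E X₀ y a b m} ∩ {y | sepT E X₀ y a b m q = true}) := by
      ext y
      exact ss_cd E X₀ y a b m q
    rw [h1]
    exact (clopen_coord _).inter ((clopen_fc E X₀ a b m).inter (clopen_sepT E X₀ hE a b m q))
  · have h1 : {y | SS E X₀ y s = true} = ∅ := by
      ext y
      simp [ss_other E X₀ y h]
    rw [h1]
    exact isClopen_empty

/-- the part of the common oracle with the prefix `p` -/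
noncomputable def SP (y : Par) (p : List Bool) : Oracle := fun q => SS E X₀ y (p ++ q)

theorem clopen_oracle {k : ℕ} (hE : IsAdd k E) (p r : List Bool) :
    IsClopen {y | join (EO E X₀ y) (SP E X₀ y p) r = true} := by
  match r with
  | [] => simp [join, isClopen_empty]
  | false :: r => exact clopen_EO E X₀ hE r
  | true :: r => exact clopen_ss E X₀ hE (p ++ r)

/-- the query for the common oracle -/
def ins (p : List Bool) : List Bool → List Bool
  | true :: q => true :: (p ++ q)
  | r => r

theorem ins_length (p r : List Bool) : (ins p r).length ≤ r.length + p.length := by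
  match r with
  | [] => simp [ins]
  | false :: r => simp [ins]
  | true :: r => simp [ins]; omega

theorem join_ins (O S : Oracle) (p r : List Bool) :
    join O (fun q => S (p ++ q)) r = join O S (ins p r) := by
  match r with
  | [] => rfl
  | false :: r => rfl
  | true :: r => rfl

/-- size of an index -/
def sy : Idx → ℕ
  | .inl r => r.length
  | .inr (a, b, z) => a + b + z.length

theorem exists_sy {U : Set Par} (hU : IsOpen U) {y₀ : Par} (hy : y₀ ∈ U) :
    ∃ N, ∀ y : Par, (∀ i, sy i ≤ N → y i = y₀ i) → y ∈ U := by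
  obtain ⟨I, u, h1, h2⟩ := isOpen_pi_iff.1 hU y₀ hy
  refine ⟨I.sup sy, fun y h => h2 fun i hi => ?_⟩
  rw [h i (Finset.le_sup (Finset.mem_coe.1 hi))]
  exact (h1 i (Finset.mem_coe.1 hi)).2

theorem EO_congr {y y' : Par} (h : ∀ r, y' (.inl r) = y (.inl r)) :
    EO E X₀ y' = EO E X₀ y := by
  have : OO X₀ y' = OO X₀ y := by
    unfold OO
    congr 1
    funext r
    exact h r
  rw [EO, EO, this]

end ESY.Alg.Gen
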